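import Mathlib

/-!
# Markov free topological groups, words of bounded length, `k_R`-spaces
-/

set_option autoImplicit false

namespace Pool.Agent.Lib_helper76.FTG

universe u

/-- `IsFreeTopGroup i`: the group `F` with its topology and the map `i : X → F` is the (Markov)
free topological group on the space `X`: `F` is a topological group, `i` is a topological
embedding (so `X` is a subspace of `F`), `X` generates `F` algebraically as a free group on the
set `X`, and every continuous map from `X` to a topological group `G` extends to a unique
continuous homomorphism `F → G`. -/
structure IsFreeTopGroup {X F : Type u} [TopologicalSpace X] [TopologicalSpace F] [Group F]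
    (i : X → F) : Prop where
  isTopologicalGroup : IsTopologicalGroup F
  isEmbedding : Topology.IsEmbedding i
  free : Function.Bijective (FreeGroup.lift i : FreeGroup X →* F)
  extension : ∀ (G : Type u) [TopologicalSpace G] [Group G] [IsTopologicalGroup G] (f : X → G),
    Continuous f → ∃! φ : F →* G, Continuous φ ∧ ∀ x, φ (i x) = f x

/-- `F_n(X)`: the set of elements of `F` whose reduced form in the letters `i x`, `(i x)⁻¹`
(`x ∈ X`) has length at most `n`. The letter `(x, true)` stands for `x` and `(x, false)` for
`x⁻¹`; a word is reduced if no two adjacent letters are mutually inverse. -/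
def wordBall {X F : Type u} [Group F] (i : X → F) (n : ℕ) : Set F :=
  {g | ∃ w : List (X × Bool), FreeGroup.IsReduced w ∧ w.length ≤ n ∧
    FreeGroup.lift i (FreeGroup.mk w) = g}

/-- A Tychonoff space `Y` is a `k_R`-space if every function `f : Y → ℝ` whose restriction to
each compact subset of `Y` is continuous is itself continuous. -/
def IsKRSpace (Y : Type u) [TopologicalSpace Y] : Prop :=
  T35Space Y ∧
    ∀ f : Y → ℝ, (∀ K : Set Y, IsCompact K → Continuous (K.restrict f)) → Continuous f

end Pool.Agent.Lib_helper76.FTG
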