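import Mathlib

/-!
# Non-crossing matchings of words in a free group (Graev's construction)
-/

set_option autoImplicit false

namespace Pool.Agent.Lib_helper76.FTG

variable {X : Type*}

/-- `Mt ρ L c`: the word `L` has a non-crossing perfect matching of letters of opposite sign
with total cost `c`. -/
inductive Mt (ρ : X → X → ℝ) : List (X × Bool) → ℝ → Prop
  | nil : Mt ρ [] 0
  | step (x y : X) (b : Bool) (u v : List (X × Bool)) (c d : ℝ) :
      Mt ρ u c → Mt ρ v d → Mt ρ ((x, b) :: (u ++ (y, !b) :: v)) (ρ x y + c + d)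

/-- The properties of the cost used below. -/
structure PM (ρ : X → X → ℝ) : Prop where
  self : ∀ x, ρ x x = 0
  pos : ∀ x y, x ≠ y → 0 < ρ x y
  symm : ∀ x y, ρ x y = ρ y x
  tri : ∀ x y z, ρ x z ≤ ρ x y + ρ y z

variable {ρ : X → X → ℝ}

theorem PM.nonneg (h : PM ρ) (x y : X) : 0 ≤ ρ x y := by
  by_cases hxy : x = y
  · rw [hxy, h.self]
  · exact (h.pos x y hxy).le

theorem Mt.cast {L : List (X × Bool)} {c d : ℝ} (h : Mt ρ L c) (e : c = d) : Mt ρ L d := e ▸ h

theorem Mt.castL {L M : List (X × Bool)} {c : ℝ} (h : Mt ρ L c) (e : L = M) : Mt ρ M c := e ▸ h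

theorem Mt.nonneg (hρ : PM ρ) {L : List (X × Bool)} {c : ℝ} (h : Mt ρ L c) : 0 ≤ c := by
  induction h with
  | nil => exact le_refl _
  | step x y b u v c d _ _ ihu ihv =>
    have := hρ.nonneg x y
    linarith

theorem Mt.append {u v : List (X × Bool)} {c d : ℝ} (hu : Mt ρ u c) (hv : Mt ρ v d) :
    Mt ρ (u ++ v) (c + d) := by
  induction hu with
  | nil => simpa using hv
  | step x y b u w c e _ _ _ ihw =>
    have h1 := ihw
    refine (Mt.castL (Mt.step x y b u (w ++ v) c (e + d) ‹_› h1) ?_).cast ?_
    · simp
    · ring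

theorem Mt.rotate1 (hρ : PM ρ) {x : X} {b : Bool} {w : List (X × Bool)} {c : ℝ}
    (h : Mt ρ ((x, b) :: w) c) : Mt ρ (w ++ [(x, b)]) c := by
  cases h with
  | step _ y _ u v c d hu hv =>
    have h1 : Mt ρ ((y, !b) :: (v ++ (x, !!b) :: [])) (ρ y x + d + 0) :=
      Mt.step y x (!b) v [] d 0 hv Mt.nil
    refine ((hu.append h1).castL ?_).cast ?_
    · simp
    · rw [hρ.symm y x]; ring

theorem Mt.rotate (hρ : PM ρ) {u v : List (X × Bool)} {c : ℝ} (h : Mt ρ (u ++ v) c) :
    Mt ρ (v ++ u) c := by
  induction u generalizing v with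
  | nil => simpa using h
  | cons a u ih =>
    obtain ⟨x, b⟩ := a
    have h1 : Mt ρ (u ++ (v ++ [(x, b)])) c := by
      have := Mt.rotate1 hρ (w := u ++ v) h
      simpa using this
    have h2 := ih h1
    simpa using h2

theorem Mt.insert (hρ : PM ρ) {u m v : List (X × Bool)} {c d : ℝ} (h : Mt ρ (u ++ v) c)
    (hm : Mt ρ m d) : Mt ρ (u ++ (m ++ v)) (c + d) := by
  have h1 := Mt.rotate hρ h
  have h2 := hm.append h1
  have h3 : Mt ρ ((m ++ v) ++ u) (d + c) := by simpa using h2
  exact (Mt.rotate hρ h3).cast (add_comm _ _)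

theorem Mt.cancel (hρ : PM ρ) {u v : List (X × Bool)} {z : X} {b : Bool} {c : ℝ}
    (h : Mt ρ (u ++ (z, b) :: (z, !b) :: v) c) : ∃ c' ≤ c, Mt ρ (u ++ v) c' := by
  have h1 : Mt ρ (((z, b) :: (z, !b) :: v) ++ u) c := Mt.rotate hρ h
  have key : ∀ w : List (X × Bool), Mt ρ ((z, b) :: (z, !b) :: w) c → ∃ c' ≤ c, Mt ρ w c' := by
    intro w hw
    generalize hW : ((z, b) :: (z, !b) :: w) = W at hw
    cases hw with
    | nil => simp at hW
    | step x y b' p q c d hp hq =>
      simp only [List.cons.injEq, Prod.mk.injEq] at hW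
      obtain ⟨⟨rfl, rfl⟩, hW⟩ := hW
      cases p with
      | nil =>
        simp only [List.nil_append, List.cons.injEq, Prod.mk.injEq] at hW
        obtain ⟨⟨rfl, _⟩, rfl⟩ := hW
        refine ⟨d, ?_, hq⟩
        have := hp.nonneg hρ
        rw [hρ.self]; linarith
      | cons a p' =>
        simp only [List.cons_append, List.cons.injEq] at hW
        obtain ⟨rfl, hW⟩ := hW
        generalize hP : ((z, !b) :: p') = P at hp
        cases hp with
        | nil => simp at hP
        | step x' y' b'' p1 p2 c1 c2 hp1 hp2 =>
          simp only [List.cons.injEq, Prod.mk.injEq] at hP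
          obtain ⟨⟨rfl, rfl⟩, rfl⟩ := hP
          subst hW
          have h2 : Mt ρ ((y', !!b) :: (p2 ++ (y, !!!b) :: q)) (ρ y' y + c2 + d) :=
            Mt.step y' y (!!b) p2 q c2 d hp2 hq
          refine ⟨c1 + (ρ y' y + c2 + d), ?_, (hp1.append h2).castL (by simp)⟩
          have h3 := hρ.tri y' z y
          rw [hρ.symm y' z] at h3
          linarith
  obtain ⟨c', hc', h2⟩ := key (v ++ u) (by simpa using h1)
  exact ⟨c', hc', Mt.rotate hρ h2⟩

theorem Mt.red (hρ : PM ρ) {L M : List (X × Bool)} (hr : FreeGroup.Red L M) {c : ℝ}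
    (h : Mt ρ L c) : ∃ c' ≤ c, Mt ρ M c' := by
  induction hr with
  | refl => exact ⟨c, le_refl _, h⟩
  | tail _ hs ih =>
    obtain ⟨c1, hc1, h1⟩ := ih
    cases hs with
    | not =>
      obtain ⟨c2, hc2, h2⟩ := Mt.cancel hρ h1
      exact ⟨c2, hc2.trans hc1, h2⟩

theorem Mt.pair (x y : X) (b : Bool) : Mt ρ [(x, b), (y, !b)] (ρ x y) :=
  (Mt.step x y b [] [] 0 0 Mt.nil Mt.nil).cast (by ring)

theorem Mt.inv_append (hρ : PM ρ) (L : List (X × Bool)) :
    Mt ρ (L ++ FreeGroup.invRev L) 0 := by
  induction L with
  | nil => simpa using Mt.nil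
  | cons a L ih =>
    obtain ⟨x, b⟩ := a
    have h := Mt.step x x b (L ++ FreeGroup.invRev L) [] 0 0 ih Mt.nil
    refine (h.castL ?_).cast ?_
    · simp [FreeGroup.invRev]
    · rw [hρ.self]; ring

theorem Mt.invRev (hρ : PM ρ) {L : List (X × Bool)} {c : ℝ} (h : Mt ρ L c) :
    Mt ρ (FreeGroup.invRev L) c := by
  induction h with
  | nil => simpa using Mt.nil
  | step x y b u v c d _ _ ihu ihv =>
    have h1 : Mt ρ ((y, b) :: (FreeGroup.invRev u ++ (x, !b) :: [])) (ρ y x + c + 0) :=
      Mt.step y x b _ [] c 0 ihu Mt.nil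
    refine ((ihv.append h1).castL ?_).cast ?_
    · simp [FreeGroup.invRev]
    · rw [hρ.symm y x]; ring

theorem Mt.even {L : List (X × Bool)} {c : ℝ} (h : Mt ρ L c) : Even L.length := by
  induction h with
  | nil => simp
  | step x y b u v c d _ _ ihu ihv =>
    have : ((x, b) :: (u ++ (y, !b) :: v)).length = u.length + v.length + 2 := by
      simp; omega
    rw [this]
    exact (ihu.add ihv).add even_two

theorem red_mid {a m c : List (X × Bool)} {w : List (X × Bool)} (h : FreeGroup.IsReduced w)
    (hw : a ++ (m ++ c) = w) : FreeGroup.IsReduced m := by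
  subst hw
  have h1 : FreeGroup.IsReduced (m ++ c) := List.IsChain.right_of_append h
  exact List.IsChain.left_of_append h1

/-- A nonempty matched word of small cost, with well separated letters, is not reduced. -/
theorem Mt.not_reduced {L : List (X × Bool)} {c δ : ℝ} (hρ : PM ρ) (h : Mt ρ L c) (hc : c < δ)
    (hsep : ∀ p ∈ L, ∀ q ∈ L, p.1 ≠ q.1 → δ ≤ ρ p.1 q.1) (hL : L ≠ []) :
    ¬ FreeGroup.IsReduced L := by
  induction h with
  | nil => exact absurd rfl hL
  | step x y b u v c d hu hv ihu ihv =>
    intro hr
    have hu0 := hu.nonneg hρ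
    have hv0 := hv.nonneg hρ
    have hxy0 := hρ.nonneg x y
    have hxy : x = y := by
      by_contra hne
      have := hsep (x, b) (by simp) (y, !b) (by simp) hne
      simp only at this
      linarith
    subst hxy
    by_cases hu' : u = []
    · subst hu'
      simp only [List.nil_append, FreeGroup.isReduced_cons_cons] at hr
      have := hr.1 trivial
      simp at this
    · refine ihu (by linarith) ?_ hu' ?_
      · intro p hp q hq
        exact hsep p (by simp [hp]) q (by simp [hq])
      · exact red_mid (a := [(x, b)]) (c := (x, !b) :: v) hr (by simp)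

/-- Decomposition of a word `w` close to the reduced word `g`. -/
inductive Dec (ρ : X → X → ℝ) : List (X × Bool) → List (X × Bool) → ℝ → Prop
  | nil (w : List (X × Bool)) (c : ℝ) : Mt ρ w c → Dec ρ [] w c
  | cons (x y : X) (b : Bool) (g u w : List (X × Bool)) (c d : ℝ) :
      Mt ρ u c → Dec ρ g w d → Dec ρ ((x, b) :: g) (u ++ (y, b) :: w) (ρ x y + c + d)

theorem dec_of_mt (hρ : PM ρ) {δ : ℝ} (g : List (X × Bool)) :
    ∀ (w : List (X × Bool)) (c : ℝ), FreeGroup.IsReduced g →
      (∀ p ∈ g, ∀ q ∈ g, p.1 ≠ q.1 → δ ≤ ρ p.1 q.1) → c < δ →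
      Mt ρ (FreeGroup.invRev g ++ w) c → Dec ρ g w c := by
  induction g with
  | nil =>
    intro w c _ _ _ h
    exact Dec.nil w c (by simpa using h)
  | cons a g ih =>
    obtain ⟨x, b⟩ := a
    intro w c hr hsep hc h
    have h1 : Mt ρ ((x, !b) :: (w ++ FreeGroup.invRev g)) c := by
      have h2 : Mt ρ (FreeGroup.invRev g ++ ((x, !b) :: w)) c := by
        refine h.castL ?_
        simp [FreeGroup.invRev]
      have h3 := Mt.rotate hρ h2
      simpa using h3
    generalize hW : ((x, !b) :: (w ++ FreeGroup.invRev g)) = W at h1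
    cases h1 with
    | nil => simp at hW
    | step x' y b' u v c1 c2 hu hv =>
      simp only [List.cons.injEq, Prod.mk.injEq] at hW
      obtain ⟨⟨rfl, rfl⟩, hW⟩ := hW
      have hu0 := hu.nonneg hρ
      have hv0 := hv.nonneg hρ
      have hxy0 := hρ.nonneg x y
      rw [List.append_eq_append_iff] at hW
      rcases hW with ⟨p, hp1, hp2⟩ | ⟨p, hp1, hp2⟩
      · -- u = w ++ p, invRev g = p ++ (y, !!b) :: v : impossible
        exfalso
        -- hp1 : u = w ++ p ; hp2 : invRev g = p ++ (y, !!b) :: v
        have hg : g = FreeGroup.invRev v ++ (y, !b) :: FreeGroup.invRev p := by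
          have := congrArg FreeGroup.invRev hp2
          rw [FreeGroup.invRev_invRev] at this
          rw [this]
          simp [FreeGroup.invRev]
        have hmem : (y, !b) ∈ g := by rw [hg]; simp
        have hxy : x = y := by
          by_contra hne
          have := hsep (x, b) (by simp) (y, !b) (by simp [hmem]) hne
          simp only at this
          linarith
        subst hxy
        by_cases hv' : v = []
        · subst hv'
          rw [hg] at hr
          simp [FreeGroup.invRev] at hr
        · have h4 := Mt.invRev hρ hv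
          have h5 : FreeGroup.invRev v ≠ [] := by
            intro h0
            apply hv'
            have := congrArg FreeGroup.invRev h0
            rw [FreeGroup.invRev_invRev] at this
            simpa using this
          refine Mt.not_reduced hρ h4 (δ := δ) (by linarith) ?_ h5 ?_
          · intro p' hp' q' hq'
            refine hsep p' ?_ q' ?_
            · rw [hg]; simp [hp']
            · rw [hg]; simp [hq']
          · refine red_mid (a := [(x, b)]) (c := (x, !b) :: FreeGroup.invRev p) hr ?_
            rw [hg]; simp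
      · -- w = u ++ p, (y, !!b) :: v = p ++ invRev g
        cases p with
        | nil =>
          -- w = u, so (y,!!b)::v = invRev g : impossible as above
          exfalso
          simp only [List.append_nil, List.nil_append] at hp1 hp2
          have hg : g = FreeGroup.invRev v ++ [(y, !b)] := by
            have := congrArg FreeGroup.invRev hp2.symm
            rw [FreeGroup.invRev_invRev] at this
            rw [this]
            simp [FreeGroup.invRev]
          have hmem : (y, !b) ∈ g := by rw [hg]; simp
          have hxy : x = y := by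
            by_contra hne
            have := hsep (x, b) (by simp) (y, !b) (by simp [hmem]) hne
            simp only at this
            linarith
          subst hxy
          by_cases hv' : v = []
          · subst hv'
            rw [hg] at hr
            simp [FreeGroup.invRev] at hr
          · have h4 := Mt.invRev hρ hv
            have h5 : FreeGroup.invRev v ≠ [] := by
              intro h0
              apply hv'
              have := congrArg FreeGroup.invRev h0
              rw [FreeGroup.invRev_invRev] at this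
              simpa using this
            refine Mt.not_reduced hρ h4 (δ := δ) (by linarith) ?_ h5 ?_
            · intro p' hp' q' hq'
              refine hsep p' ?_ q' ?_
              · rw [hg]; simp [hp']
              · rw [hg]; simp [hq']
            · refine red_mid (a := [(x, b)]) (c := [(x, !b)]) hr ?_
              rw [hg]; simp
        | cons a p' =>
          simp only [List.cons_append, List.cons.injEq] at hp2
          obtain ⟨rfl, rfl⟩ := hp2
          have h6 : Mt ρ (FreeGroup.invRev g ++ p') c2 := Mt.rotate hρ hv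
          have h7 := ih p' c2 (red_mid (a := [(x, b)]) (c := []) hr (by simp))
            (fun p hp q hq => hsep p (by simp [hp]) q (by simp [hq])) (by linarith) h6
          have h8 := Dec.cons x y b g u p' c1 c2 hu h7
          rw [hp1]
          simpa using h8

end Pool.Agent.Lib_helper76.FTG
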