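import Mathlib
import Pool.Agent.Lib_helper76.FTG.Match

/-!
# Graev-type group topologies on a free group and on a wreath product
-/

set_option autoImplicit false

namespace Pool.Agent.Lib_helper76.FTG

open Topology Filter Pointwise

universe u

variable {X : Type u} {ρ : X → X → ℝ}

/-- Graev neighbourhoods of `1` in the free group. -/
def V (ρ : X → X → ℝ) (ε : ℝ) : Set (FreeGroup X) :=
  {g | ∃ L c, c < ε ∧ Mt ρ L c ∧ FreeGroup.mk L = g}

theorem V_mono {ε ε' : ℝ} (h : ε ≤ ε') : V ρ ε ⊆ V ρ ε' := by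
  rintro g ⟨L, c, hc, hL, rfl⟩
  exact ⟨L, c, hc.trans_le h, hL, rfl⟩

theorem one_mem_V {ε : ℝ} (h : 0 < ε) : (1 : FreeGroup X) ∈ V ρ ε :=
  ⟨[], 0, h, Mt.nil, rfl⟩

theorem V_mul {ε : ℝ} {g h : FreeGroup X} (hg : g ∈ V ρ (ε / 2)) (hh : h ∈ V ρ (ε / 2)) :
    g * h ∈ V ρ ε := by
  obtain ⟨L, c, hc, hL, rfl⟩ := hg
  obtain ⟨M, d, hd, hM, rfl⟩ := hh
  exact ⟨L ++ M, c + d, by linarith, hL.append hM, by simp⟩

theorem V_inv (hρ : PM ρ) {ε : ℝ} {g : FreeGroup X} (hg : g ∈ V ρ ε) : g⁻¹ ∈ V ρ ε := by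
  obtain ⟨L, c, hc, hL, rfl⟩ := hg
  exact ⟨FreeGroup.invRev L, c, hc, Mt.invRev hρ hL, by simp⟩

theorem V_conj (hρ : PM ρ) {ε : ℝ} (x g : FreeGroup X) (hg : g ∈ V ρ ε) :
    x * g * x⁻¹ ∈ V ρ ε := by
  obtain ⟨L, c, hc, hL, rfl⟩ := hg
  induction x using Quot.inductionOn with
  | h M =>
    change (FreeGroup.mk M) * FreeGroup.mk L * (FreeGroup.mk M)⁻¹ ∈ _
    have h1 : Mt ρ (M ++ (L ++ FreeGroup.invRev M)) (0 + c) :=
      Mt.insert hρ (Mt.inv_append hρ M) hL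
    exact ⟨_, _, by linarith, h1, by simp [FreeGroup.mul_mk, FreeGroup.inv_mk]⟩

/-- The Graev filter basis on the free group. -/
@[reducible]
def gBasis (ρ : X → X → ℝ) (hρ : PM ρ) : GroupFilterBasis (FreeGroup X) where
  sets := {S | ∃ ε : ℝ, 0 < ε ∧ S = V ρ ε}
  nonempty := ⟨V ρ 1, 1, one_pos, rfl⟩
  inter_sets := by
    rintro _ _ ⟨ε, hε, rfl⟩ ⟨ε', hε', rfl⟩
    refine ⟨V ρ (min ε ε'), ⟨_, lt_min hε hε', rfl⟩, Set.subset_inter ?_ ?_⟩
    · exact V_mono (min_le_left _ _)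
    · exact V_mono (min_le_right _ _)
  one' := by
    rintro _ ⟨ε, hε, rfl⟩
    exact one_mem_V hε
  mul' := by
    rintro _ ⟨ε, hε, rfl⟩
    refine ⟨V ρ (ε / 2), ⟨_, half_pos hε, rfl⟩, ?_⟩
    rintro _ ⟨g, hg, h, hh, rfl⟩
    exact V_mul hg hh
  inv' := by
    rintro _ ⟨ε, hε, rfl⟩
    exact ⟨V ρ ε, ⟨_, hε, rfl⟩, fun g hg => V_inv hρ hg⟩
  conj' := by
    rintro x _ ⟨ε, hε, rfl⟩
    exact ⟨V ρ ε, ⟨_, hε, rfl⟩, fun g hg => V_conj hρ x g hg⟩

/-- The wreath product used to separate nested words. -/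
abbrev W (X : Type u) : Type u := RegularWreathProduct (FreeGroup X) (FreeGroup X)

/-- Box neighbourhoods of `1` in the wreath product. -/
def B (ρ : X → X → ℝ) (e : FreeGroup X → ℝ) : Set (W X) :=
  {g | g.right = 1 ∧ ∀ q, g.left q ∈ V ρ (e q)}

/-- The box filter basis on the wreath product. -/
@[reducible]
def wBasis (ρ : X → X → ℝ) (hρ : PM ρ) : GroupFilterBasis (W X) where
  sets := {S | ∃ e : FreeGroup X → ℝ, (∀ q, 0 < e q) ∧ S = B ρ e}
  nonempty := ⟨B ρ (fun _ => 1), _, fun _ => one_pos, rfl⟩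
  inter_sets := by
    rintro _ _ ⟨e, he, rfl⟩ ⟨e', he', rfl⟩
    refine ⟨B ρ (fun q => min (e q) (e' q)), ⟨_, fun q => lt_min (he q) (he' q), rfl⟩, ?_⟩
    rintro g ⟨h1, h2⟩
    exact ⟨⟨h1, fun q => V_mono (min_le_left _ _) (h2 q)⟩,
      ⟨h1, fun q => V_mono (min_le_right _ _) (h2 q)⟩⟩
  one' := by
    rintro _ ⟨e, he, rfl⟩
    exact ⟨rfl, fun q => one_mem_V (he q)⟩
  mul' := by
    rintro _ ⟨e, he, rfl⟩
    refine ⟨B ρ (fun q => e q / 2), ⟨_, fun q => half_pos (he q), rfl⟩, ?_⟩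
    rintro _ ⟨g, hg, h, hh, rfl⟩
    refine ⟨?_, fun q => ?_⟩
    · simp [hg.1, hh.1]
    · simp only [RegularWreathProduct.mul_left, Pi.mul_apply, hg.1, inv_one, one_mul]
      exact V_mul (hg.2 q) (hh.2 q)
  inv' := by
    rintro _ ⟨e, he, rfl⟩
    refine ⟨B ρ e, ⟨_, he, rfl⟩, fun g hg => ⟨?_, fun q => ?_⟩⟩
    · simp [hg.1]
    · simp only [RegularWreathProduct.inv_left, hg.1, one_mul, Pi.inv_apply]
      exact V_inv hρ (hg.2 q)
  conj' := by
    rintro x _ ⟨e, he, rfl⟩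
    refine ⟨B ρ (fun q => e (x.right * q)), ⟨_, fun q => he _, rfl⟩, fun g hg => ⟨?_, fun q => ?_⟩⟩
    · simp [hg.1]
    · have h1 := V_conj hρ (x.left q) _ (hg.2 (x.right⁻¹ * q))
      simpa [hg.1, mul_assoc] using h1

/-- Continuity criterion for a map into a group with the topology of a filter basis. -/
theorem continuous_of_basis {G : Type u} [Group G] (Bs : GroupFilterBasis G)
    [TopologicalSpace X] (f : X → G)
    (h : ∀ x₀, ∀ U ∈ Bs.sets, ∀ᶠ x in 𝓝 x₀, (f x₀)⁻¹ * f x ∈ U) :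
    @Continuous X G _ Bs.topology f := by
  let _ := Bs.topology
  rw [continuous_iff_continuousAt]
  intro x₀
  rw [ContinuousAt, (Bs.nhds_hasBasis (f x₀)).tendsto_right_iff]
  intro U hU
  filter_upwards [h x₀ U hU] with x hx
  exact ⟨_, hx, by simp⟩

theorem V_pair {x y : X} (b : Bool) {ε : ℝ} (h : ρ x y < ε) :
    FreeGroup.mk [(x, b), (y, !b)] ∈ V ρ ε :=
  ⟨_, _, h, Mt.pair x y b, rfl⟩

theorem of_inv_mul_of (x y : X) :
    (FreeGroup.of x)⁻¹ * FreeGroup.of y = FreeGroup.mk [(x, false), (y, true)] := by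
  simp [FreeGroup.of, FreeGroup.invRev]

theorem of_continuous_graev [TopologicalSpace X] (hρ : PM ρ)
    (hcont : ∀ x, ∀ ε > 0, ∀ᶠ y in 𝓝 x, ρ x y < ε) :
    @Continuous X (FreeGroup X) _ (gBasis ρ hρ).topology FreeGroup.of := by
  apply continuous_of_basis
  rintro x₀ _ ⟨ε, hε, rfl⟩
  filter_upwards [hcont x₀ ε hε] with y hy
  rw [of_inv_mul_of]
  exact V_pair false hy

open Classical in
/-- The map into the wreath product. -/
noncomputable def wmap (O : Set X) (x : X) : W X :=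
  if x ∈ O then ⟨fun q => if q = 1 then FreeGroup.of x else 1, 1⟩ else ⟨1, FreeGroup.of x⟩

theorem wmap_continuous [TopologicalSpace X] (hρ : PM ρ) (O : Set X)
    (hcont : ∀ x, ∀ ε > 0, ∀ᶠ y in 𝓝 x, ρ x y < ε)
    (hO : ∀ x, x ∈ O → ∀ᶠ y in 𝓝 x, y ∈ O) (hO' : ∀ x, x ∉ O → ∀ᶠ y in 𝓝 x, y = x) :
    @Continuous X (W X) _ (wBasis ρ hρ).topology (wmap O) := by
  classical
  apply continuous_of_basis
  rintro x₀ _ ⟨e, he, rfl⟩
  by_cases hx : x₀ ∈ O
  · filter_upwards [hO x₀ hx, hcont x₀ (e 1) (he 1)] with y hy hy'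
    refine ⟨?_, fun q => ?_⟩
    · simp [wmap, hx, hy]
    · simp only [wmap, hx, hy, if_true, RegularWreathProduct.mul_left,
        RegularWreathProduct.inv_left, one_mul, Pi.mul_apply, Pi.inv_apply,
        RegularWreathProduct.inv_right, inv_one]
      by_cases hq : q = 1
      · subst hq
        simp only [if_true]
        rw [of_inv_mul_of]
        exact V_pair false hy'
      · simp only [hq, if_false, inv_one, mul_one]
        exact one_mem_V (he q)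
  · filter_upwards [hO' x₀ hx] with y hy
    subst hy
    rw [inv_mul_cancel]
    exact ⟨rfl, fun q => one_mem_V (he q)⟩

theorem wmap_cond_out (O : Set X) {a : X} (ha : a ∉ O) (b : Bool) :
    cond b (wmap O a) (wmap O a)⁻¹ = ⟨1, FreeGroup.mk [(a, b)]⟩ := by
  cases b
  · refine RegularWreathProduct.ext ?_ ?_
    · funext q
      simp [wmap, ha]
    · simp [wmap, ha, FreeGroup.of, FreeGroup.invRev]
  · simp [wmap, ha, FreeGroup.of]

open Classical in
theorem wmap_cond_in (O : Set X) {u : X} (hu : u ∈ O) (c : Bool) :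
    cond c (wmap O u) (wmap O u)⁻¹ =
      ⟨fun q => if q = 1 then FreeGroup.mk [(u, c)] else 1, 1⟩ := by
  cases c
  · refine RegularWreathProduct.ext ?_ ?_
    · funext q
      by_cases hq : q = 1
      · simp [wmap, hu, hq, FreeGroup.of, FreeGroup.invRev]
      · simp [wmap, hu, hq]
    · simp [wmap, hu]
  · simp [wmap, hu, FreeGroup.of]

theorem wmap_nested (O : Set X) {a u v : X} (ha : a ∉ O) (hu : u ∈ O) (hv : v ∈ O)
    (b c : Bool) :
    (FreeGroup.lift (wmap O) (FreeGroup.mk [(a, b), (u, c), (v, !c), (a, !b)])).left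
      (FreeGroup.mk [(a, b)]) = FreeGroup.mk [(u, c), (v, !c)] := by
  classical
  rw [FreeGroup.lift_mk]
  simp only [List.map_cons, List.map_nil, List.prod_cons, List.prod_nil,
    wmap_cond_out O ha, wmap_cond_in O hu, wmap_cond_in O hv]
  have h1 : (FreeGroup.mk [(a, b)])⁻¹ * FreeGroup.mk [(a, b)] = (1 : FreeGroup X) :=
    inv_mul_cancel _
  simp only [RegularWreathProduct.mul_left, Pi.mul_apply, Pi.one_apply, one_mul, h1, if_true,
    RegularWreathProduct.one_left, mul_one, inv_one]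
  simp

end Pool.Agent.Lib_helper76.FTG
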