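import Mathlib
import Pool.Agent.Lib_helper76.FTG.Top

/-!
# The metric on a metrizable space with compact derived set
-/

set_option autoImplicit false

namespace Pool.Agent.Lib_helper76.FTG

open Topology Filter Pointwise

universe u

/-- The cost `ρ` and the height `h` used on `X`. -/
structure Setup (X : Type u) [TopologicalSpace X] (ρ : X → X → ℝ) (h : X → ℝ) : Prop where
  pm : PM ρ
  hnonneg : ∀ x, 0 ≤ h x
  low : ∀ x y, x ≠ y → h x ≤ ρ x y
  cont : ∀ x, ∀ ε > 0, ∀ᶠ y in 𝓝 x, ρ x y < ε
  nbhd : ∀ x, ∀ U ∈ 𝓝 x, ∃ ε > 0, ∀ y, ρ x y < ε → y ∈ U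
  iso : ∀ x, 0 < h x → IsOpen ({x} : Set X)
  hsmall : ∀ ε x, h x < ε → ∀ᶠ y in 𝓝 x, h y < ε
  comp : ∀ x : ℕ → X, Tendsto (fun n => h (x n)) atTop (𝓝 0) →
    ∃ z, ∃ φ : ℕ → ℕ, StrictMono φ ∧ Tendsto (x ∘ φ) atTop (𝓝 z)

variable {X : Type u} [TopologicalSpace X] {ρ : X → X → ℝ} {h : X → ℝ}

theorem Setup.tendsto_of (S : Setup X ρ h) {ι : Type*} {l : Filter ι} {x : ι → X} {z : X}
    (hx : Tendsto (fun n => ρ z (x n)) l (𝓝 0)) : Tendsto x l (𝓝 z) := by
  intro U hU
  obtain ⟨ε, hε, hU'⟩ := S.nbhd z U hU
  have h1 : ∀ᶠ n in l, x n ∈ U := by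
    filter_upwards [hx.eventually_lt_const hε] with n hn using hU' _ hn
  exact h1

theorem Setup.tendsto_to (S : Setup X ρ h) {ι : Type*} {l : Filter ι} {x : ι → X} {z : X}
    (hx : Tendsto x l (𝓝 z)) : Tendsto (fun n => ρ z (x n)) l (𝓝 0) := by
  rw [Metric.tendsto_nhds]
  intro ε hε
  filter_upwards [hx.eventually (S.cont z ε hε)] with n hn
  rw [Real.dist_eq, sub_zero, abs_of_nonneg (S.pm.nonneg _ _)]
  exact hn

/-- Extraction of a common limit. -/
theorem Setup.seqpair (S : Setup X ρ h) {x y : ℕ → X}
    (hxy : Tendsto (fun n => ρ (x n) (y n)) atTop (𝓝 0))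
    (hx : Tendsto (fun n => h (x n)) atTop (𝓝 0)) :
    ∃ z, ∃ φ : ℕ → ℕ, StrictMono φ ∧ Tendsto (x ∘ φ) atTop (𝓝 z) ∧
      Tendsto (y ∘ φ) atTop (𝓝 z) := by
  obtain ⟨z, φ, hφ, hz⟩ := S.comp x hx
  refine ⟨z, φ, hφ, hz, S.tendsto_of ?_⟩
  have h1 := S.tendsto_to hz
  have h2 := hxy.comp hφ.tendsto_atTop
  have h3 := h1.add h2
  rw [add_zero] at h3
  refine squeeze_zero (fun n => S.pm.nonneg _ _) (fun n => ?_) h3
  exact S.pm.tri z (x (φ n)) (y (φ n))

theorem exists_setup (X : Type u) [TopologicalSpace X] [TopologicalSpace.MetrizableSpace X]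
    (hX : IsCompact {x : X | ¬ IsOpen ({x} : Set X)}) :
    ∃ (ρ : X → X → ℝ) (h : X → ℝ), Setup X ρ h := by
  classical
  by_cases hne : {x : X | ¬ IsOpen ({x} : Set X)}.Nonempty
  · let _ := TopologicalSpace.metrizableSpaceMetric X
    set D : Set X := {x : X | ¬ IsOpen ({x} : Set X)} with hD
    refine ⟨fun x y => if x = y then 0 else
      max (dist x y) (max (Metric.infDist x D) (Metric.infDist y D)),
      fun x => Metric.infDist x D, ?_⟩
    refine ⟨⟨?_, ?_, ?_, ?_⟩, ?_, ?_, ?_, ?_, ?_, ?_, ?_⟩
    · intro x; simp
    · intro x y hxy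
      simp only [hxy, if_false]
      exact lt_max_of_lt_left (dist_pos.2 hxy)
    · intro x y
      by_cases hxy : x = y
      · simp [hxy]
      · have hyx : y ≠ x := fun h => hxy h.symm
        simp only [hxy, hyx, if_false]
        rw [dist_comm, max_comm (Metric.infDist x D)]
    · intro x y z
      have hx0 : 0 ≤ Metric.infDist x D := Metric.infDist_nonneg
      have hy0 : 0 ≤ Metric.infDist y D := Metric.infDist_nonneg
      have hz0 : 0 ≤ Metric.infDist z D := Metric.infDist_nonneg
      by_cases hxz : x = z
      · subst hxz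
        simp only [if_true]
        by_cases hxy : x = y
        · simp [hxy]
        · have hyx : y ≠ x := fun h => hxy h.symm
          simp only [hxy, hyx, if_false]
          have h1 : 0 ≤ max (dist x y) (max (Metric.infDist x D) (Metric.infDist y D)) :=
            le_max_of_le_left dist_nonneg
          have h2 : 0 ≤ max (dist y x) (max (Metric.infDist y D) (Metric.infDist x D)) :=
            le_max_of_le_left dist_nonneg
          linarith
      · by_cases hxy : x = y
        · subst hxy; simp
        · by_cases hyz : y = z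
          · subst hyz; simp
          · simp only [hxz, hxy, hyz, if_false]
            have h1 := dist_triangle x y z
            have a1 : dist x y ≤ max (dist x y) (max (Metric.infDist x D) (Metric.infDist y D)) :=
              le_max_left _ _
            have a2 : dist y z ≤ max (dist y z) (max (Metric.infDist y D) (Metric.infDist z D)) :=
              le_max_left _ _
            have a3 : Metric.infDist x D ≤
                max (dist x y) (max (Metric.infDist x D) (Metric.infDist y D)) :=
              le_max_of_le_right (le_max_left _ _)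
            have a4 : Metric.infDist z D ≤
                max (dist y z) (max (Metric.infDist y D) (Metric.infDist z D)) :=
              le_max_of_le_right (le_max_right _ _)
            have d1 : (0:ℝ) ≤ dist x y := dist_nonneg
            have d2 : (0:ℝ) ≤ dist y z := dist_nonneg
            refine max_le (by linarith) (max_le (by linarith) (by linarith))
    · intro x; exact Metric.infDist_nonneg
    · intro x y hxy
      simp only [hxy, if_false]
      exact le_max_of_le_right (le_max_left _ _)
    · intro x ε hε
      by_cases hx : x ∈ D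
      · filter_upwards [Metric.ball_mem_nhds x hε] with y hy
        have h0 : Metric.infDist x D = 0 := Metric.infDist_zero_of_mem hx
        have h1 : Metric.infDist y D ≤ dist y x := Metric.infDist_le_dist_of_mem hx
        rw [Metric.mem_ball] at hy
        by_cases hxy : x = y
        · simp [hxy, hε]
        · simp only [hxy, if_false]
          rw [h0]
          refine max_lt ?_ (max_lt hε ?_)
          · rw [dist_comm]; exact hy
          · linarith
      · have hx' : IsOpen ({x} : Set X) := by
          by_contra hcon
          exact hx hcon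
        filter_upwards [hx'.mem_nhds rfl] with y hy
        rw [Set.mem_singleton_iff] at hy
        simp [hy, hε]
    · intro x U hU
      obtain ⟨ε, hε, hU'⟩ := Metric.mem_nhds_iff.1 hU
      refine ⟨ε, hε, fun y hy => ?_⟩
      by_cases hxy : x = y
      · rw [← hxy]; exact mem_of_mem_nhds hU
      · simp only [hxy, if_false] at hy
        apply hU'
        rw [Metric.mem_ball, dist_comm]
        exact lt_of_le_of_lt (le_max_left _ _) hy
    · intro x hx
      by_contra hcon
      have : Metric.infDist x D = 0 := Metric.infDist_zero_of_mem hcon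
      rw [this] at hx
      exact lt_irrefl _ hx
    · intro ε x hx
      exact (Metric.continuous_infDist_pt D).continuousAt.eventually_lt_const hx
    · intro x hx
      have h1 : ∀ n, ∃ z ∈ D, Metric.infDist (x n) D = dist (x n) z := fun n =>
        hX.exists_infDist_eq_dist hne (x n)
      choose z hz hz' using h1
      obtain ⟨a, _, φ, hφ, ha⟩ := hX.tendsto_subseq hz
      refine ⟨a, φ, hφ, ?_⟩
      have h2 : Tendsto (fun n => dist (x (φ n)) (z (φ n))) atTop (𝓝 0) := by
        have := hx.comp hφ.tendsto_atTop
        refine this.congr fun n => ?_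
        exact hz' (φ n)
      rw [tendsto_iff_dist_tendsto_zero]
      have h3 := (tendsto_iff_dist_tendsto_zero.1 ha)
      have h4 := h2.add h3
      rw [add_zero] at h4
      refine squeeze_zero (fun n => dist_nonneg) (fun n => ?_) h4
      exact dist_triangle _ (z (φ n)) _
  · have hop : ∀ x : X, IsOpen ({x} : Set X) := by
      intro x
      by_contra hcon
      exact hne ⟨x, hcon⟩
    refine ⟨fun x y => if x = y then 0 else 1, fun _ => 1, ?_⟩
    refine ⟨⟨?_, ?_, ?_, ?_⟩, ?_, ?_, ?_, ?_, ?_, ?_, ?_⟩
    · intro x; simp
    · intro x y hxy; simp [hxy]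
    · intro x y
      by_cases hxy : x = y
      · simp [hxy]
      · have hyx : y ≠ x := fun h => hxy h.symm
        simp [hxy, hyx]
    · intro x y z
      by_cases hxy : x = y
      · subst hxy; simp
      · by_cases hyz : y = z
        · subst hyz; simp
        · simp only [hxy, hyz, if_false]
          by_cases hxz : x = z
          · simp only [hxz, if_true]; norm_num
          · simp only [hxz, if_false]; norm_num
    · intro x; exact zero_le_one
    · intro x y hxy; simp [hxy]
    · intro x ε hε
      filter_upwards [(hop x).mem_nhds rfl] with y hy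
      rw [Set.mem_singleton_iff] at hy
      simp [hy, hε]
    · intro x U hU
      refine ⟨1, one_pos, fun y hy => ?_⟩
      by_cases hxy : x = y
      · rw [← hxy]; exact mem_of_mem_nhds hU
      · simp [hxy] at hy
    · intro x _; exact hop x
    · intro ε x hx; exact Eventually.of_forall fun _ => hx
    · intro x hx
      exfalso
      have := tendsto_nhds_unique hx tendsto_const_nhds
      norm_num at this

end Pool.Agent.Lib_helper76.FTG
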