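import Mathlib
import Pool.Agent.Lib_helper76.FTG.Setup

/-!
# `F_4(X)` is Fréchet–Urysohn
-/

set_option autoImplicit false

namespace Pool.Agent.Lib_helper76.FTG

open Topology Filter Pointwise

universe u

section Unred

variable {X : Type u} {ρ : X → X → ℝ}

theorem Mt.unred (hρ : PM ρ) {L M : List (X × Bool)} (hr : FreeGroup.Red L M) {c : ℝ}
    (h : Mt ρ M c) : Mt ρ L c := by
  induction hr using Relation.ReflTransGen.head_induction_on with
  | refl => exact h
  | head hs _ ih =>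
    cases hs with
    | @not u v z b =>
      have h1 := Mt.insert hρ ih (Mt.pair (ρ := ρ) z z b)
      refine (h1.cast ?_).castL ?_
      · rw [hρ.self, add_zero]
      · simp

theorem Mt.congr (hρ : PM ρ) {L M : List (X × Bool)} (hLM : FreeGroup.mk L = FreeGroup.mk M)
    {c : ℝ} (h : Mt ρ L c) : ∃ c' ≤ c, Mt ρ M c' := by
  obtain ⟨K, h1, h2⟩ := FreeGroup.Red.exact.1 hLM
  obtain ⟨c', hc', h3⟩ := Mt.red hρ h1 h
  exact ⟨c', hc', Mt.unred hρ h2 h3⟩

theorem mem_V_iff (hρ : PM ρ) {L : List (X × Bool)} {ε : ℝ} :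
    FreeGroup.mk L ∈ V ρ ε ↔ ∃ c < ε, Mt ρ L c := by
  constructor
  · rintro ⟨M, c, hc, hM, hML⟩
    obtain ⟨c', hc', h⟩ := Mt.congr hρ hML hM
    exact ⟨c', lt_of_le_of_lt hc' hc, h⟩
  · rintro ⟨c, hc, h⟩
    exact ⟨L, c, hc, h, rfl⟩

theorem Mt.shape2 {w : List (X × Bool)} {c : ℝ} (h : Mt ρ w c) (hw : w.length ≤ 3) :
    (w = [] ∧ c = 0) ∨ ∃ x y b, w = [(x, b), (y, !b)] ∧ c = ρ x y := by
  cases h with
  | nil => exact Or.inl ⟨rfl, rfl⟩
  | step x y b u v c d hu hv =>
    right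
    have h1 := hu.even
    have h2 := hv.even
    simp only [List.length_cons, List.length_append] at hw
    have hu0 : u = [] := by
      rw [← List.length_eq_zero_iff]
      rcases h1 with ⟨k, hk⟩
      omega
    have hv0 : v = [] := by
      rw [← List.length_eq_zero_iff]
      rcases h2 with ⟨k, hk⟩
      omega
    subst hu0
    subst hv0
    cases hu
    cases hv
    exact ⟨x, y, b, rfl, by ring⟩

theorem Mt.shape4 {w : List (X × Bool)} {c : ℝ} (h : Mt ρ w c) (hw : w.length ≤ 4) :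
    (w = [] ∧ c = 0) ∨ (∃ x y b, w = [(x, b), (y, !b)] ∧ c = ρ x y) ∨
    (∃ x y b u v b', w = [(x, b), (y, !b), (u, b'), (v, !b')] ∧ c = ρ x y + ρ u v) ∨
    (∃ x y b u v b', w = [(x, b), (u, b'), (v, !b'), (y, !b)] ∧ c = ρ x y + ρ u v) := by
  cases h with
  | nil => exact Or.inl ⟨rfl, rfl⟩
  | step x y b u v c d hu hv =>
    right
    simp only [List.length_cons, List.length_append] at hw
    rcases hu.shape2 (by omega) with ⟨rfl, rfl⟩ | ⟨x', y', b', rfl, rfl⟩
    · rcases hv.shape2 (by omega) with ⟨rfl, rfl⟩ | ⟨x', y', b', rfl, rfl⟩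
      · left
        exact ⟨x, y, b, rfl, by ring⟩
      · right; left
        exact ⟨x, y, b, x', y', b', rfl, by ring⟩
    · rcases hv.shape2 (by simp at hw ⊢; omega) with ⟨rfl, rfl⟩ | ⟨x'', y'', b'', rfl, rfl⟩
      · right; right
        exact ⟨x, y, b, x', y', b', rfl, by ring⟩
      · simp at hw

theorem exists_sep (hρ : PM ρ) (G : List (X × Bool)) :
    ∃ δ > 0, ∀ p ∈ G, ∀ q ∈ G, p.1 ≠ q.1 → δ ≤ ρ p.1 q.1 := by
  have key : ∀ M : List ((X × Bool) × (X × Bool)),
      ∃ δ > 0, ∀ r ∈ M, r.1.1 ≠ r.2.1 → δ ≤ ρ r.1.1 r.2.1 := by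
    intro M
    induction M with
    | nil => exact ⟨1, one_pos, by simp⟩
    | cons a M ih =>
      obtain ⟨δ, hδ, h⟩ := ih
      by_cases ha : a.1.1 = a.2.1
      · refine ⟨δ, hδ, ?_⟩
        intro r hr hne
        rcases List.mem_cons.1 hr with rfl | hr
        · exact absurd ha hne
        · exact h r hr hne
      · refine ⟨min δ (ρ a.1.1 a.2.1), lt_min hδ (hρ.pos _ _ ha), ?_⟩
        intro r hr hne
        rcases List.mem_cons.1 hr with rfl | hr
        · exact min_le_right _ _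
        · exact (min_le_left _ _).trans (h r hr hne)
  obtain ⟨δ, hδ, h⟩ := key (G ×ˢ G)
  refine ⟨δ, hδ, fun p hp q hq hne => h (p, q) ?_ hne⟩
  exact List.mem_product.2 ⟨hp, hq⟩

end Unred

section Conv

variable {X : Type u} [TopologicalSpace X] {ρ : X → X → ℝ} {h : X → ℝ}
variable {F : Type u} [TopologicalSpace F] [Group F] [IsTopologicalGroup F] {i : X → F}

/-- The value of a letter. -/
def val (i : X → F) (b : Bool) (x : X) : F := cond b (i x) (i x)⁻¹

theorem val_continuous (hi : Continuous i) (b : Bool) : Continuous (val i b) := by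
  cases b
  · exact hi.inv
  · exact hi

omit [TopologicalSpace X] [TopologicalSpace F] [IsTopologicalGroup F] in
theorem val_not (b : Bool) (x : X) : val i (!b) x = (val i b x)⁻¹ := by
  cases b <;> simp [val]

omit [TopologicalSpace X] [TopologicalSpace F] [IsTopologicalGroup F] in
theorem lift_cons (x : X) (b : Bool) (L : List (X × Bool)) :
    FreeGroup.lift i (FreeGroup.mk ((x, b) :: L)) = val i b x * FreeGroup.lift i (FreeGroup.mk L) := by
  simp [FreeGroup.lift_mk, val]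

omit [TopologicalSpace X] [TopologicalSpace F] [IsTopologicalGroup F] in
theorem lift_nil : FreeGroup.lift i (FreeGroup.mk ([] : List (X × Bool))) = 1 := by
  simp [FreeGroup.lift_mk]

omit [TopologicalSpace X] [TopologicalSpace F] [IsTopologicalGroup F] in
theorem lift_append (L M : List (X × Bool)) :
    FreeGroup.lift i (FreeGroup.mk (L ++ M)) =
      FreeGroup.lift i (FreeGroup.mk L) * FreeGroup.lift i (FreeGroup.mk M) := by
  rw [← FreeGroup.mul_mk, map_mul]

theorem inv_nat_tendsto : Tendsto (fun n : ℕ => 1 / ((n : ℝ) + 1)) atTop (𝓝 0) :=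
  tendsto_one_div_add_atTop_nhds_zero_nat

/-- Uniform continuity of the inclusion, one pair of letters. -/
theorem pair_small (S : Setup X ρ h) (hi : Continuous i) {N : Set F} (hN : N ∈ 𝓝 (1 : F)) :
    ∃ ε > 0, ∀ x y b, ρ x y < ε → FreeGroup.lift i (FreeGroup.mk [(x, b), (y, !b)]) ∈ N := by
  have key : ∀ b, ∃ ε > 0, ∀ x y, ρ x y < ε →
      FreeGroup.lift i (FreeGroup.mk [(x, b), (y, !b)]) ∈ N := by
    intro b
    by_contra hcon
    push Not at hcon
    have h1 : ∀ n : ℕ, ∃ x y, ρ x y < 1 / ((n : ℝ) + 1) ∧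
        FreeGroup.lift i (FreeGroup.mk [(x, b), (y, !b)]) ∉ N := fun n =>
      hcon _ Nat.one_div_pos_of_nat
    choose x y hxy hN' using h1
    have hne : ∀ n, x n ≠ y n := by
      intro n hn
      apply hN' n
      rw [lift_cons, lift_cons, lift_nil, val_not, hn]
      simpa using mem_of_mem_nhds hN
    have t1 : Tendsto (fun n => ρ (x n) (y n)) atTop (𝓝 0) :=
      squeeze_zero (fun n => S.pm.nonneg _ _) (fun n => (hxy n).le) inv_nat_tendsto
    have t2 : Tendsto (fun n => h (x n)) atTop (𝓝 0) :=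
      squeeze_zero (fun n => S.hnonneg _) (fun n => S.low _ _ (hne n)) t1
    obtain ⟨z, φ, hφ, hx, hy⟩ := S.seqpair t1 t2
    have t3 : Tendsto (fun n => FreeGroup.lift i (FreeGroup.mk [(x (φ n), b), (y (φ n), !b)]))
        atTop (𝓝 1) := by
      have a1 := ((val_continuous hi b).tendsto z).comp hx
      have a2 := ((val_continuous hi (!b)).tendsto z).comp hy
      have a3 := a1.mul a2
      rw [val_not, mul_inv_cancel] at a3
      refine a3.congr fun n => ?_
      rw [lift_cons, lift_cons, lift_nil, mul_one]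
      rfl
    obtain ⟨n, hn⟩ := (t3.eventually hN).exists
    exact hN' _ hn
  obtain ⟨ε1, h1, h1'⟩ := key true
  obtain ⟨ε2, h2, h2'⟩ := key false
  refine ⟨min ε1 ε2, lt_min h1 h2, ?_⟩
  intro x y b hxy
  cases b
  · exact h2' x y (hxy.trans_le (min_le_right _ _))
  · exact h1' x y (hxy.trans_le (min_le_left _ _))

/-- Uniform smallness of nested words near the derived set. -/
theorem nested_small (S : Setup X ρ h) (hi : Continuous i) {N : Set F} (hN : N ∈ 𝓝 (1 : F)) :
    ∃ ε > 0, ∀ x y u v b c, ρ x y < ε → ρ u v < ε → u ≠ v → h x < ε →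
      FreeGroup.lift i (FreeGroup.mk [(x, b), (u, c), (v, !c), (y, !b)]) ∈ N := by
  have key : ∀ b c, ∃ ε > 0, ∀ x y u v, ρ x y < ε → ρ u v < ε → u ≠ v → h x < ε →
      FreeGroup.lift i (FreeGroup.mk [(x, b), (u, c), (v, !c), (y, !b)]) ∈ N := by
    intro b c
    by_contra hcon
    push Not at hcon
    have h1 : ∀ n : ℕ, ∃ x y u v, ρ x y < 1 / ((n : ℝ) + 1) ∧ ρ u v < 1 / ((n : ℝ) + 1) ∧
        u ≠ v ∧ h x < 1 / ((n : ℝ) + 1) ∧
        FreeGroup.lift i (FreeGroup.mk [(x, b), (u, c), (v, !c), (y, !b)]) ∉ N := fun n =>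
      hcon _ Nat.one_div_pos_of_nat
    choose x y u v hxy huv hne hx hN' using h1
    have t1 : Tendsto (fun n => ρ (x n) (y n)) atTop (𝓝 0) :=
      squeeze_zero (fun n => S.pm.nonneg _ _) (fun n => (hxy n).le) inv_nat_tendsto
    have t2 : Tendsto (fun n => h (x n)) atTop (𝓝 0) :=
      squeeze_zero (fun n => S.hnonneg _) (fun n => (hx n).le) inv_nat_tendsto
    have t1' : Tendsto (fun n => ρ (u n) (v n)) atTop (𝓝 0) :=
      squeeze_zero (fun n => S.pm.nonneg _ _) (fun n => (huv n).le) inv_nat_tendsto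
    have t2' : Tendsto (fun n => h (u n)) atTop (𝓝 0) :=
      squeeze_zero (fun n => S.hnonneg _) (fun n => S.low _ _ (hne n)) t1'
    obtain ⟨z, φ, hφ, hx1, hy1⟩ := S.seqpair t1 t2
    obtain ⟨z', ψ, hψ, hu1, hv1⟩ := S.seqpair (t1'.comp hφ.tendsto_atTop)
      (t2'.comp hφ.tendsto_atTop)
    have hx2 := hx1.comp hψ.tendsto_atTop
    have hy2 := hy1.comp hψ.tendsto_atTop
    have t3 : Tendsto (fun n => FreeGroup.lift i (FreeGroup.mk
        [(x (φ (ψ n)), b), (u (φ (ψ n)), c), (v (φ (ψ n)), !c), (y (φ (ψ n)), !b)]))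
        atTop (𝓝 1) := by
      have a1 := ((val_continuous hi b).tendsto z).comp hx2
      have a2 := ((val_continuous hi c).tendsto z').comp hu1
      have a3 := ((val_continuous hi (!c)).tendsto z').comp hv1
      have a4 := ((val_continuous hi (!b)).tendsto z).comp hy2
      have a5 := a1.mul (a2.mul (a3.mul a4))
      rw [val_not, val_not, mul_inv_cancel_left, mul_inv_cancel] at a5
      refine a5.congr fun n => ?_
      rw [lift_cons, lift_cons, lift_cons, lift_cons, lift_nil, mul_one]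
      rfl
    obtain ⟨n, hn⟩ := (t3.eventually hN).exists
    exact hN' _ hn
  obtain ⟨ε1, h1, h1'⟩ := key true true
  obtain ⟨ε2, h2, h2'⟩ := key true false
  obtain ⟨ε3, h3, h3'⟩ := key false true
  obtain ⟨ε4, h4, h4'⟩ := key false false
  refine ⟨min (min ε1 ε2) (min ε3 ε4), lt_min (lt_min h1 h2) (lt_min h3 h4), ?_⟩
  intro x y u v b c hxy huv hne hx
  have l1 : min (min ε1 ε2) (min ε3 ε4) ≤ ε1 := (min_le_left _ _).trans (min_le_left _ _)
  have l2 : min (min ε1 ε2) (min ε3 ε4) ≤ ε2 := (min_le_left _ _).trans (min_le_right _ _)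
  have l3 : min (min ε1 ε2) (min ε3 ε4) ≤ ε3 := (min_le_right _ _).trans (min_le_left _ _)
  have l4 : min (min ε1 ε2) (min ε3 ε4) ≤ ε4 := (min_le_right _ _).trans (min_le_right _ _)
  cases b <;> cases c
  · exact h4' x y u v (hxy.trans_le l4) (huv.trans_le l4) hne (hx.trans_le l4)
  · exact h3' x y u v (hxy.trans_le l3) (huv.trans_le l3) hne (hx.trans_le l3)
  · exact h2' x y u v (hxy.trans_le l2) (huv.trans_le l2) hne (hx.trans_le l2)
  · exact h1' x y u v (hxy.trans_le l1) (huv.trans_le l1) hne (hx.trans_le l1)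

/-- Nested words with fixed outer letter. -/
theorem nested_fixed (S : Setup X ρ h) (hi : Continuous i) (a : X) (b : Bool) {N : Set F}
    (hN : N ∈ 𝓝 (1 : F)) :
    ∃ ε > 0, ∀ u v c, ρ u v < ε →
      FreeGroup.lift i (FreeGroup.mk [(a, b), (u, c), (v, !c), (a, !b)]) ∈ N := by
  have h1 : {g : F | val i b a * g * (val i b a)⁻¹ ∈ N} ∈ 𝓝 (1 : F) := by
    have hc : Continuous fun g : F => val i b a * g * (val i b a)⁻¹ := by fun_prop
    have := hc.tendsto 1
    rw [mul_one, mul_inv_cancel] at this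
    exact this hN
  obtain ⟨ε, hε, h2⟩ := pair_small S hi h1
  refine ⟨ε, hε, fun u v c huv => ?_⟩
  have h3 := h2 u v c huv
  have h4 : FreeGroup.lift i (FreeGroup.mk [(a, b), (u, c), (v, !c), (a, !b)]) =
      val i b a * FreeGroup.lift i (FreeGroup.mk [(u, c), (v, !c)]) * (val i b a)⁻¹ := by
    simp only [lift_cons, lift_nil, val_not, mul_one, mul_assoc]
  rw [h4]
  exact h3

theorem block_small (S : Setup X ρ h) (hi : Continuous i) {N : Set F} (hN : N ∈ 𝓝 (1 : F)) :
    ∃ ε > 0, ∀ w c, Mt ρ w c → c < ε → w.length ≤ 3 →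
      FreeGroup.lift i (FreeGroup.mk w) ∈ N := by
  obtain ⟨ε, hε, h1⟩ := pair_small S hi hN
  refine ⟨ε, hε, fun w c hw hc hl => ?_⟩
  rcases hw.shape2 hl with ⟨rfl, rfl⟩ | ⟨x, y, b, rfl, rfl⟩
  · rw [lift_nil]; exact mem_of_mem_nhds hN
  · exact h1 x y b hc

omit [TopologicalSpace X] in
theorem Dec.nonneg (hρ : PM ρ) {g w : List (X × Bool)} {c : ℝ} (hd : Dec ρ g w c) : 0 ≤ c := by
  induction hd with
  | nil w c h => exact h.nonneg hρ
  | cons x y b g u w c d hu _ ih =>
    have := hu.nonneg hρ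
    have := hρ.nonneg x y
    linarith

theorem dec_step (S : Setup X ρ h) (hi : Continuous i) (x : X) (b : Bool)
    (g : List (X × Bool))
    (ih : ∀ N ∈ 𝓝 (FreeGroup.lift i (FreeGroup.mk g)), ∃ ε > 0, ∀ w c, Dec ρ g w c → c < ε →
      w.length ≤ 3 → FreeGroup.lift i (FreeGroup.mk w) ∈ N)
    (N : Set F) (hN : N ∈ 𝓝 (FreeGroup.lift i (FreeGroup.mk ((x, b) :: g)))) :
    ∃ ε > 0, ∀ w c, Dec ρ ((x, b) :: g) w c → c < ε → w.length ≤ 4 →
      FreeGroup.lift i (FreeGroup.mk w) ∈ N := by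
  have hc : Continuous fun p : F × F × F => p.1 * (p.2.1 * p.2.2) := by fun_prop
  have ht := hc.tendsto ((1 : F), val i b x, FreeGroup.lift i (FreeGroup.mk g))
  simp only [one_mul] at ht
  rw [← lift_cons] at ht
  have h1 := ht hN
  rw [nhds_prod_eq, nhds_prod_eq, mem_map, mem_prod_iff] at h1
  obtain ⟨N1, hN1, N23, hN23, h2⟩ := h1
  rw [mem_prod_iff] at hN23
  obtain ⟨N2, hN2, N3, hN3, h3⟩ := hN23
  obtain ⟨ε1, he1, h4⟩ := block_small S hi hN1
  obtain ⟨ε2, he2, h5⟩ := S.nbhd x _ ((val_continuous hi b).tendsto x hN2)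
  obtain ⟨ε3, he3, h6⟩ := ih N3 hN3
  refine ⟨min ε1 (min ε2 ε3), lt_min he1 (lt_min he2 he3), ?_⟩
  intro w c hd hcε hl
  cases hd with
  | cons _ y _ _ u w' c1 c2 hu hw' =>
    have a1 := hu.nonneg S.pm
    have a2 := Dec.nonneg S.pm hw'
    have a3 := S.pm.nonneg x y
    have b1 := hcε.trans_le (min_le_left ε1 (min ε2 ε3))
    have b2 := hcε.trans_le ((min_le_right ε1 (min ε2 ε3)).trans (min_le_left _ _))
    have b3 := hcε.trans_le ((min_le_right ε1 (min ε2 ε3)).trans (min_le_right _ _))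
    simp only [List.length_append, List.length_cons] at hl
    have m1 := h4 u c1 hu (by linarith) (by omega)
    have m2 := h5 y (by linarith)
    have m3 := h6 w' c2 hw' (by linarith) (by omega)
    have m4 : (FreeGroup.lift i (FreeGroup.mk u), val i b y,
        FreeGroup.lift i (FreeGroup.mk w')) ∈ (N1 ×ˢ N23 : Set (F × F × F)) :=
      ⟨m1, h3 ⟨m2, m3⟩⟩
    have m5 := h2 m4
    rw [lift_append, lift_cons]
    exact m5

theorem dec_small (S : Setup X ρ h) (hi : Continuous i) (g : List (X × Bool)) :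
    ∀ N ∈ 𝓝 (FreeGroup.lift i (FreeGroup.mk g)), ∃ ε > 0, ∀ w c, Dec ρ g w c → c < ε →
      w.length ≤ 3 → FreeGroup.lift i (FreeGroup.mk w) ∈ N := by
  induction g with
  | nil =>
    intro N hN
    rw [lift_nil] at hN
    obtain ⟨ε, hε, h1⟩ := block_small S hi hN
    refine ⟨ε, hε, fun w c hd hc hl => ?_⟩
    cases hd with
    | nil _ _ hw => exact h1 w c hw hc hl
  | cons a g ih =>
    obtain ⟨x, b⟩ := a
    intro N hN
    obtain ⟨ε, hε, h1⟩ := dec_step S hi x b g ih N hN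
    exact ⟨ε, hε, fun w c hd hc hl => h1 w c hd hc (by omega)⟩

end Conv

end Pool.Agent.Lib_helper76.FTG
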