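import Mathlib
import Pool.Agent.Lib_helper76.FTG.Main

/-!
# Sequences in `F_4(X)`
-/

set_option autoImplicit false

namespace Pool.Agent.Lib_helper76.FTG

open Topology Filter Pointwise

universe u

variable {X : Type u} [TopologicalSpace X] {ρ : X → X → ℝ} {h : X → ℝ}
variable {F : Type u} [TopologicalSpace F] [Group F] [IsTopologicalGroup F] {i : X → F}

/-- Words of length at most `4` matched by pairs of cost `< ε`, excluding the nested words whose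
outer letter is far from the derived set. -/
def Good (ρ : X → X → ℝ) (h : X → ℝ) (ε : ℝ) (w : List (X × Bool)) : Prop :=
  w = [] ∨ (∃ x y b, w = [(x, b), (y, !b)] ∧ ρ x y < ε) ∨
  (∃ x y b u v c, w = [(x, b), (y, !b), (u, c), (v, !c)] ∧ ρ x y < ε ∧ ρ u v < ε) ∨
  (∃ x y b u v c, w = [(x, b), (u, c), (v, !c), (y, !b)] ∧ ρ x y < ε ∧ ρ u v < ε ∧ u ≠ v ∧
    h x < ε)

theorem good_small (S : Setup X ρ h) (hi : Continuous i) {N : Set F} (hN : N ∈ 𝓝 (1 : F)) :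
    ∃ ε > 0, ∀ w, Good ρ h ε w → FreeGroup.lift i (FreeGroup.mk w) ∈ N := by
  obtain ⟨M, hM, hMN⟩ : ∃ M ∈ 𝓝 (1 : F), M * M ⊆ N := by
    obtain ⟨M, hM, h2⟩ := exists_open_nhds_one_mul_subset hN
    exact ⟨M, hM.mem_nhds h2.1, h2.2⟩
  obtain ⟨ε1, h1, h1'⟩ := pair_small S hi hN
  obtain ⟨ε2, h2, h2'⟩ := pair_small S hi hM
  obtain ⟨ε3, h3, h3'⟩ := nested_small S hi hN
  refine ⟨min ε1 (min ε2 ε3), lt_min h1 (lt_min h2 h3), ?_⟩
  have l1 : min ε1 (min ε2 ε3) ≤ ε1 := min_le_left _ _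
  have l2 : min ε1 (min ε2 ε3) ≤ ε2 := (min_le_right _ _).trans (min_le_left _ _)
  have l3 : min ε1 (min ε2 ε3) ≤ ε3 := (min_le_right _ _).trans (min_le_right _ _)
  intro w hw
  rcases hw with rfl | ⟨x, y, b, rfl, hxy⟩ | ⟨x, y, b, u, v, c, rfl, hxy, huv⟩ |
    ⟨x, y, b, u, v, c, rfl, hxy, huv, hne, hx⟩
  · rw [lift_nil]; exact mem_of_mem_nhds hN
  · exact h1' x y b (hxy.trans_le l1)
  · have m1 := h2' x y b (hxy.trans_le l2)
    have m2 := h2' u v c (huv.trans_le l2)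
    have m3 : FreeGroup.lift i (FreeGroup.mk [(x, b), (y, !b), (u, c), (v, !c)]) =
        FreeGroup.lift i (FreeGroup.mk [(x, b), (y, !b)]) *
        FreeGroup.lift i (FreeGroup.mk [(u, c), (v, !c)]) := by
      rw [← lift_append]; rfl
    rw [m3]
    exact hMN (Set.mul_mem_mul m1 m2)
  · exact h3' x y u v b c (hxy.trans_le l3) (huv.trans_le l3) hne (hx.trans_le l3)

theorem seq_of_small (T : Set F) (g : F) (P : ℝ → F → Prop)
    (hP : ∀ N ∈ 𝓝 g, ∃ ε > 0, ∀ a, ∀ ε' ≤ ε, P ε' a → a ∈ N)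
    (hex : ∀ ε > 0, ∃ a ∈ T, P ε a) : ∃ x : ℕ → F, (∀ n, x n ∈ T) ∧ Tendsto x atTop (𝓝 g) := by
  have h1 : ∀ n : ℕ, ∃ a ∈ T, P (1 / ((n : ℝ) + 1)) a := fun n => hex _ Nat.one_div_pos_of_nat
  choose x hx hxP using h1
  refine ⟨x, hx, ?_⟩
  intro N hN
  obtain ⟨ε, hε, h2⟩ := hP N hN
  have h3 : ∀ᶠ n in atTop, x n ∈ N := by
    have h4 := inv_nat_tendsto.eventually_lt_const hε
    filter_upwards [h4] with n hn
    exact h2 (x n) _ hn.le (hxP n)
  exact h3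

omit [TopologicalSpace X] in
theorem close_mem (T : Set F) (g : F) (hg : g ∈ closure T) (U : Set F) (hU : U ∈ 𝓝 (1 : F)) :
    ∃ a ∈ T, g⁻¹ * a ∈ U := by
  have hc : Continuous fun a : F => g⁻¹ * a := by fun_prop
  have ht := hc.tendsto g
  rw [inv_mul_cancel] at ht
  have := mem_closure_iff_nhds.1 hg _ (ht hU)
  obtain ⟨a, ha1, ha2⟩ := this
  exact ⟨a, ha2, ha1⟩

theorem seq_cons (S : Setup X ρ h) (hi : Continuous i)
    (hinj : Function.Injective (FreeGroup.lift i))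
    (hV : ∀ ε > 0, (FreeGroup.lift i : FreeGroup X → F) '' V ρ ε ∈ 𝓝 (1 : F))
    (T : Set F) (hT : ∀ a ∈ T, ∃ w : List (X × Bool), w.length ≤ 4 ∧
      FreeGroup.lift i (FreeGroup.mk w) = a)
    (x : X) (b : Bool) (g : List (X × Bool)) (hg : FreeGroup.IsReduced ((x, b) :: g))
    (hcl : FreeGroup.lift i (FreeGroup.mk ((x, b) :: g)) ∈ closure T) :
    ∃ s : ℕ → F, (∀ n, s n ∈ T) ∧
      Tendsto s atTop (𝓝 (FreeGroup.lift i (FreeGroup.mk ((x, b) :: g)))) := by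
  obtain ⟨δ, hδ, hsep⟩ := exists_sep S.pm ((x, b) :: g)
  refine seq_of_small T _ (fun ε a => ∃ w c, w.length ≤ 4 ∧ Dec ρ ((x, b) :: g) w c ∧ c < ε ∧
    FreeGroup.lift i (FreeGroup.mk w) = a) ?_ ?_
  · intro N hN
    obtain ⟨ε, hε, h1⟩ := dec_step S hi x b g (dec_small S hi g) N hN
    refine ⟨ε, hε, ?_⟩
    rintro a ε' hε' ⟨w, c, hl, hd, hc, rfl⟩
    exact h1 w c hd (hc.trans_le hε') hl
  · intro ε hε
    obtain ⟨a, ha, haV⟩ := close_mem T _ hcl _ (hV (min ε δ) (lt_min hε hδ))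
    refine ⟨a, ha, ?_⟩
    obtain ⟨w, hl, rfl⟩ := hT a ha
    obtain ⟨v, hv, hv'⟩ := haV
    rw [← map_inv, ← map_mul] at hv'
    have h2 := hinj hv'
    rw [FreeGroup.inv_mk, FreeGroup.mul_mk] at h2
    rw [h2] at hv
    obtain ⟨c, hc, hm⟩ := (mem_V_iff S.pm).1 hv
    refine ⟨w, c, hl, ?_, hc.trans_le (min_le_left _ _), rfl⟩
    exact dec_of_mt S.pm ((x, b) :: g) w c hg hsep (hc.trans_le (min_le_right _ _)) hm

theorem seq_one (S : Setup X ρ h) (hi : Continuous i)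
    (hinj : Function.Injective (FreeGroup.lift i))
    (hV : ∀ ε > 0, (FreeGroup.lift i : FreeGroup X → F) '' V ρ ε ∈ 𝓝 (1 : F))
    (hB : ∀ ε₀ > 0, ∀ e : FreeGroup X → ℝ, (∀ q, 0 < e q) → (FreeGroup.lift i : FreeGroup X → F) ''
      {w | FreeGroup.lift (wmap {x | h x < ε₀}) w ∈ B ρ e} ∈ 𝓝 (1 : F))
    (T : Set F) (hT : ∀ a ∈ T, ∃ w : List (X × Bool), w.length ≤ 4 ∧ FreeGroup.IsReduced w ∧
      FreeGroup.lift i (FreeGroup.mk w) = a)
    (hcl : (1 : F) ∈ closure T) :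
    ∃ s : ℕ → F, (∀ n, s n ∈ T) ∧ Tendsto s atTop (𝓝 1) := by
  classical
  by_cases hA : ∀ ε > 0, ∃ a ∈ T, ∃ w, Good ρ h ε w ∧ FreeGroup.lift i (FreeGroup.mk w) = a
  · refine seq_of_small T 1 (fun ε a => ∃ w, Good ρ h ε w ∧
      FreeGroup.lift i (FreeGroup.mk w) = a) ?_ hA
    intro N hN
    obtain ⟨ε, hε, h1⟩ := good_small S hi hN
    refine ⟨ε, hε, ?_⟩
    rintro a ε' hε' ⟨w, hw, rfl⟩
    apply h1
    rcases hw with rfl | ⟨x, y, b, rfl, hxy⟩ | ⟨x, y, b, u, v, c, rfl, hxy, huv⟩ |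
      ⟨x, y, b, u, v, c, rfl, hxy, huv, hne, hx⟩
    · exact Or.inl rfl
    · exact Or.inr (Or.inl ⟨x, y, b, rfl, hxy.trans_le hε'⟩)
    · exact Or.inr (Or.inr (Or.inl ⟨x, y, b, u, v, c, rfl, hxy.trans_le hε', huv.trans_le hε'⟩))
    · exact Or.inr (Or.inr (Or.inr ⟨x, y, b, u, v, c, rfl, hxy.trans_le hε', huv.trans_le hε',
        hne, hx.trans_le hε'⟩))
  by_cases hA2 : ∃ a b, ∀ ε > 0, ∃ t ∈ T, ∃ u v c, ρ u v < ε ∧
      FreeGroup.lift i (FreeGroup.mk [(a, b), (u, c), (v, !c), (a, !b)]) = t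
  · obtain ⟨a, b, hab⟩ := hA2
    refine seq_of_small T 1 (fun ε t => ∃ u v c, ρ u v < ε ∧
      FreeGroup.lift i (FreeGroup.mk [(a, b), (u, c), (v, !c), (a, !b)]) = t) ?_ hab
    intro N hN
    obtain ⟨ε, hε, h1⟩ := nested_fixed S hi a b hN
    refine ⟨ε, hε, ?_⟩
    rintro t ε' hε' ⟨u, v, c, huv, rfl⟩
    exact h1 u v c (huv.trans_le hε')
  exfalso
  push Not at hA hA2
  obtain ⟨ε₀, hε₀, hA⟩ := hA
  choose ef hef hef' using hA2
  let e : FreeGroup X → ℝ := fun q =>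
    if hq : ∃ p : X × Bool, q = FreeGroup.mk [p] then ef hq.choose.1 hq.choose.2 else 1
  have he : ∀ q, 0 < e q := by
    intro q
    by_cases hq : ∃ p : X × Bool, q = FreeGroup.mk [p]
    · simp only [e, hq, dif_pos]
      exact hef _ _
    · simp only [e, hq, dif_neg, not_false_iff]
      exact one_pos
  have he' : ∀ a b, e (FreeGroup.mk [(a, b)]) = ef a b := by
    intro a b
    have hq : ∃ p : X × Bool, (FreeGroup.mk [(a, b)] : FreeGroup X) = FreeGroup.mk [p] :=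
      ⟨(a, b), rfl⟩
    have h1 : hq.choose = (a, b) := by
      have h2 := hq.choose_spec
      have h3 := congrArg FreeGroup.toWord h2
      simpa using h3.symm
    simp only [e, hq, dif_pos]
    rw [h1]
  have hN := Filter.inter_mem (hV ε₀ hε₀) (hB ε₀ hε₀ e he)
  obtain ⟨t, ht, htN⟩ := close_mem T 1 hcl _ hN
  rw [inv_one, one_mul] at htN
  obtain ⟨w, hl, hred, rfl⟩ := hT t ht
  obtain ⟨⟨v1, hv1, hv1'⟩, ⟨v2, hv2, hv2'⟩⟩ := htN
  have e1 := hinj hv1'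
  have e2 := hinj hv2'
  subst e1
  subst e2
  obtain ⟨c, hc, hm⟩ := (mem_V_iff S.pm).1 hv1
  rcases hm.shape4 hl with ⟨rfl, rfl⟩ | ⟨x, y, b, rfl, rfl⟩ | ⟨x, y, b, u, v, c', rfl, rfl⟩ |
    ⟨x, y, b, u, v, c', rfl, rfl⟩
  · exact hA _ ht _ (Or.inl rfl) rfl
  · exact hA _ ht _ (Or.inr (Or.inl ⟨x, y, b, rfl, hc⟩)) rfl
  · have a1 := S.pm.nonneg x y
    have a2 := S.pm.nonneg u v
    exact hA _ ht _ (Or.inr (Or.inr (Or.inl ⟨x, y, b, u, v, c', rfl, by linarith, by linarith⟩)))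
      rfl
  · have a1 := S.pm.nonneg x y
    have a2 := S.pm.nonneg u v
    have huv : u ≠ v := by
      rintro rfl
      simp at hred
    by_cases hx : h x < ε₀
    · exact hA _ ht _ (Or.inr (Or.inr (Or.inr ⟨x, y, b, u, v, c', rfl, by linarith, by linarith,
        huv, hx⟩))) rfl
    · push Not at hx
      have hxy : x = y := by
        by_contra hne
        have := S.low x y hne
        linarith
      subst hxy
      have hu : h u < ε₀ := by
        have := S.low u v huv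
        linarith
      have hv : h v < ε₀ := by
        have := S.low v u huv.symm
        rw [S.pm.symm v u] at this
        linarith
      have hxO : x ∉ {x | h x < ε₀} := by simpa using hx
      have k1 := hv2.2 (FreeGroup.mk [(x, b)])
      rw [wmap_nested {x | h x < ε₀} hxO hu hv b c', he'] at k1
      obtain ⟨c'', hc'', hm'⟩ := (mem_V_iff S.pm).1 k1
      rcases hm'.shape2 (by simp) with ⟨h0, _⟩ | ⟨p, q, r, h0, h0'⟩
      · simp at h0
      · simp only [List.cons.injEq, Prod.mk.injEq] at h0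
        obtain ⟨⟨rfl, rfl⟩, ⟨rfl, _⟩, _⟩ := h0
        rw [h0'] at hc''
        exact hef' x b _ ht u v c' hc'' rfl

end Pool.Agent.Lib_helper76.FTG
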