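import Mathlib
import Pool.Agent.Lib_helper76.FTG.Final
import Pool.Agent.Lib_helper76.FTG.Defs

/-!
# `F_4(X)` is Fréchet–Urysohn and a `k_R`-space; existence of free topological groups
-/

set_option autoImplicit false

namespace Pool.Agent.Lib_helper76.FTG

open Topology Filter Pointwise

universe u

section Nbhd

variable {X F : Type u} [TopologicalSpace X] [TopologicalSpace F] [Group F] {i : X → F}

theorem IsFreeTopGroup.image_mem_nhds (hF : IsFreeTopGroup i) {G : Type u} [Group G]
    (Bs : GroupFilterBasis G) (f : X → G) (hf : @Continuous X G _ Bs.topology f)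
    (U : Set G) (hU : U ∈ Bs.sets) :
    (FreeGroup.lift i : FreeGroup X → F) '' {w | FreeGroup.lift f w ∈ U} ∈ 𝓝 (1 : F) := by
  let _ := Bs.topology
  have htg : IsTopologicalGroup G := Bs.isTopologicalGroup
  obtain ⟨φ, ⟨hφ, hφi⟩, _⟩ := hF.extension G f hf
  have h1 : ∀ w, φ (FreeGroup.lift i w) = FreeGroup.lift f w := by
    have : φ.comp (FreeGroup.lift i) = FreeGroup.lift f := by
      apply FreeGroup.ext_hom
      intro x
      simp [hφi]
    intro w
    rw [← this]
    rfl
  have h2 : U ∈ 𝓝 (φ 1) := by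
    rw [map_one]
    exact Bs.mem_nhds_one hU
  have h3 := hφ.continuousAt.preimage_mem_nhds h2
  refine Filter.mem_of_superset h3 ?_
  intro g hg
  obtain ⟨w, rfl⟩ := hF.free.2 g
  refine ⟨w, ?_, rfl⟩
  change FreeGroup.lift f w ∈ U
  rw [← h1]
  exact hg

end Nbhd

section Main

variable {X F : Type u} [TopologicalSpace X] [TopologicalSpace F] [Group F] {i : X → F}
variable {ρ : X → X → ℝ} {h : X → ℝ}

theorem lift_of_eq (X : Type u) : (FreeGroup.lift FreeGroup.of : FreeGroup X →* FreeGroup X) =
    MonoidHom.id _ := by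
  ext; simp

theorem nbhd_V (S : Setup X ρ h) (hF : IsFreeTopGroup i) :
    ∀ ε > 0, (FreeGroup.lift i : FreeGroup X → F) '' V ρ ε ∈ 𝓝 (1 : F) := by
  intro ε hε
  have h1 := hF.image_mem_nhds (gBasis ρ S.pm) FreeGroup.of (of_continuous_graev S.pm S.cont)
    (V ρ ε) ⟨ε, hε, rfl⟩
  rw [lift_of_eq] at h1
  exact h1

theorem nbhd_B (S : Setup X ρ h) (hF : IsFreeTopGroup i) :
    ∀ ε₀ > 0, ∀ e : FreeGroup X → ℝ, (∀ q, 0 < e q) → (FreeGroup.lift i : FreeGroup X → F) ''
      {w | FreeGroup.lift (wmap {x | h x < ε₀}) w ∈ B ρ e} ∈ 𝓝 (1 : F) := by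
  intro ε₀ hε₀ e he
  refine hF.image_mem_nhds (wBasis ρ S.pm) (wmap {x | h x < ε₀}) ?_ (B ρ e) ⟨e, he, rfl⟩
  apply wmap_continuous S.pm _ S.cont
  · intro x hx
    exact S.hsmall ε₀ x hx
  · intro x hx
    have h1 : 0 < h x := by
      have : ¬ h x < ε₀ := hx
      push Not at this
      linarith
    filter_upwards [(S.iso x h1).mem_nhds rfl] with y hy using hy

theorem frechetUrysohn (S : Setup X ρ h) (hF : IsFreeTopGroup i) :
    FrechetUrysohnSpace (wordBall i 4) := by
  have htg := hF.isTopologicalGroup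
  have hi : Continuous i := hF.isEmbedding.continuous
  have hinj := hF.free.1
  refine ⟨fun s a ha => ?_⟩
  obtain ⟨w, hred, hl, hw⟩ := a.2
  have hcl : (a : F) ∈ closure (Subtype.val '' s) := by
    have := image_closure_subset_closure_image (f := (Subtype.val : wordBall i 4 → F))
      continuous_subtype_val (Set.mem_image_of_mem _ ha)
    exact this
  have hT : ∀ t ∈ (Subtype.val '' s : Set F), ∃ w : List (X × Bool), w.length ≤ 4 ∧
      FreeGroup.IsReduced w ∧ FreeGroup.lift i (FreeGroup.mk w) = t := by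
    rintro _ ⟨t, _, rfl⟩
    obtain ⟨v, h1, h2, h3⟩ := t.2
    exact ⟨v, h2, h1, h3⟩
  have key : ∃ x : ℕ → F, (∀ n, x n ∈ (Subtype.val '' s : Set F)) ∧
      Tendsto x atTop (𝓝 (a : F)) := by
    cases w with
    | nil =>
      rw [lift_nil] at hw
      rw [← hw] at hcl ⊢
      exact seq_one S hi hinj (nbhd_V S hF) (nbhd_B S hF) _ hT hcl
    | cons p g =>
      obtain ⟨x, b⟩ := p
      rw [← hw] at hcl ⊢
      refine seq_cons S hi hinj (nbhd_V S hF) _ ?_ x b g hred hcl
      intro t ht
      obtain ⟨v, h1, _, h3⟩ := hT t ht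
      exact ⟨v, h1, h3⟩
  obtain ⟨x, hx, hxa⟩ := key
  choose y hy hyx using hx
  refine ⟨y, hy, ?_⟩
  rw [tendsto_subtype_rng]
  refine hxa.congr fun n => ?_
  exact (hyx n).symm

theorem t2 (S : Setup X ρ h) (hF : IsFreeTopGroup i) : T2Space F := by
  classical
  have htg := hF.isTopologicalGroup
  refine IsTopologicalGroup.t2Space_of_one_sep fun g hg => ?_
  obtain ⟨w, rfl⟩ := hF.free.2 g
  have hw : w ≠ 1 := by
    rintro rfl
    exact hg (map_one _)
  obtain ⟨δ, hδ, hsep⟩ := exists_sep S.pm w.toWord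
  refine ⟨_, nbhd_V S hF δ hδ, ?_⟩
  rintro ⟨v, hv, hvw⟩
  have h1 := hF.free.1 hvw
  subst h1
  have h2 : FreeGroup.mk v.toWord ∈ V ρ δ := by
    rw [FreeGroup.mk_toWord]; exact hv
  obtain ⟨c, hc, hm⟩ := (mem_V_iff S.pm).1 h2
  refine Mt.not_reduced S.pm hm hc hsep ?_ ?_
  · intro h0
    exact hw (FreeGroup.toWord_eq_nil_iff.1 h0)
  · exact FreeGroup.isReduced_toWord

theorem isKRSpace_of_frechetUrysohn {Y : Type u} [TopologicalSpace Y] [T35Space Y]
    [FrechetUrysohnSpace Y] : IsKRSpace Y := by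
  refine ⟨inferInstance, fun f hf => ?_⟩
  rw [continuous_iff_seqContinuous]
  intro x a hx
  have hK : IsCompact (insert a (Set.range x)) := hx.isCompact_insert_range
  have h1 := hf _ hK
  have h2 : Tendsto (fun n => (⟨x n, Set.mem_insert_of_mem _ ⟨n, rfl⟩⟩ :
      (insert a (Set.range x) : Set Y))) atTop (𝓝 ⟨a, Set.mem_insert _ _⟩) := by
    rw [tendsto_subtype_rng]
    exact hx
  exact (h1.tendsto _).comp h2

theorem main (S : Setup X ρ h) (hF : IsFreeTopGroup i) :
    IsKRSpace (wordBall i 4) ∧ FrechetUrysohnSpace (wordBall i 4) := by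
  have htg := hF.isTopologicalGroup
  have h2 := t2 S hF
  have hcr : CompletelyRegularSpace F :=
    CompletelyRegularSpace.of_exists_uniformSpace ⟨IsTopologicalGroup.rightUniformSpace F, rfl⟩
  have h35 : T35Space F := {}
  have hFU := frechetUrysohn S hF
  exact ⟨isKRSpace_of_frechetUrysohn, hFU⟩

end Main

/-- The free group topology: the finest group topology for which `FreeGroup.of` is
continuous. -/
@[reducible]
def freeTop (X : Type u) [tX : TopologicalSpace X] : TopologicalSpace (FreeGroup X) :=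
  sInf {t | @IsTopologicalGroup (FreeGroup X) t _ ∧ @Continuous X (FreeGroup X) tX t FreeGroup.of}

universe v

theorem freeTop_lift (X : Type u) [tX : TopologicalSpace X] (G : Type v) [TopologicalSpace G]
    [Group G] [IsTopologicalGroup G] (f : X → G) (hf : Continuous f) :
    @Continuous (FreeGroup X) G (freeTop X) _ (FreeGroup.lift f) := by
  have h1 : freeTop X ≤ TopologicalSpace.induced (FreeGroup.lift f) inferInstance := by
    refine sInf_le ⟨topologicalGroup_induced (FreeGroup.lift f), ?_⟩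
    rw [continuous_induced_rng]
    refine hf.congr fun x => ?_
    simp
  exact continuous_iff_le_induced.2 h1

/-- The free topological group exists for every Tychonoff space. -/
theorem exists_isFreeTopGroup (X : Type u) [tX : TopologicalSpace X] [T35Space X] :
    ∃ (F : Type u) (_ : TopologicalSpace F) (_ : Group F) (i : X → F), IsFreeTopGroup i := by
  have htg : @IsTopologicalGroup (FreeGroup X) (freeTop X) _ :=
    topologicalGroup_sInf fun t ht => ht.1
  have hcont : @Continuous X (FreeGroup X) tX (freeTop X) FreeGroup.of :=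
    continuous_sInf_rng.2 fun t ht => ht.2
  let _ : TopologicalSpace (FreeGroup X) := freeTop X
  refine ⟨FreeGroup X, freeTop X, inferInstance, FreeGroup.of,
    ⟨htg, ⟨⟨?_⟩, FreeGroup.of_injective⟩, ?_, ?_⟩⟩
  · refine le_antisymm (continuous_iff_le_induced.1 hcont) ?_
    rw [le_iff_nhds]
    intro x
    rw [nhds_induced]
    intro U hU
    obtain ⟨O, hOU, hO, hxO⟩ := mem_nhds_iff.1 hU
    obtain ⟨g, hg, hgx, hgK⟩ := CompletelyRegularSpace.completely_regular x Oᶜ hO.isClosed_compl
      (by simpa using hxO)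
    let f : X → Multiplicative ℝ := fun y => Multiplicative.ofAdd ((g y : ℝ))
    have hf : Continuous f := by
      have hval : Continuous (Subtype.val : unitInterval → ℝ) := continuous_induced_dom
      exact hval.comp hg
    have hl := freeTop_lift X (Multiplicative ℝ) f hf
    have hop : IsOpen {a : Multiplicative ℝ | Multiplicative.toAdd a < 1} :=
      isOpen_lt (α := ℝ) (continuous_id) continuous_const
    rw [Filter.mem_comap]
    refine ⟨FreeGroup.lift f ⁻¹' {a : Multiplicative ℝ | Multiplicative.toAdd a < 1}, ?_, ?_⟩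
    · refine (hop.preimage hl).mem_nhds ?_
      simp [f, hgx]
    · intro y hy
      apply hOU
      by_contra hyO
      have h1 : g y = 1 := hgK hyO
      simp [f, h1] at hy
  · rw [lift_of_eq]
    exact Function.bijective_id
  · intro G _ _ _ f hf
    refine ⟨FreeGroup.lift f, ⟨freeTop_lift X G f hf, fun x => by simp⟩, ?_⟩
    rintro ψ ⟨_, hψ⟩
    apply FreeGroup.ext_hom
    intro x
    simp [hψ]

end Pool.Agent.Lib_helper76.FTG
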